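import Pool.Agent.H45.EXA.ExvB
import Pool.Agent.H57.W1.H99.GEN.GrC
import Pool.Agent.H3.W2.H2.GEN.ChS
import Pool.Agent.H31.W1.H80.GEN.Chn

/-!
# No chain is better than the numbers of the closed labels

`lbp_of_chn`: a chain on natural boxes gives exact closed labels, without bounds for the gradients,
at every smaller radius. `chn_abs`: in a greedy order with exactness, no visible chain is better
than the numbers of the closed labels. `bet_le_vst`: the thresholds of the chains are at most the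
numbers of the closed labels, if these are smaller than `1 - θ w`.
-/

set_option autoImplicit false

namespace Pool.W.GRW

open Pool.GRW

open Finset Real MvPolynomial
open Pool.Agent.H49.Ent Pool.Agent.H32.Dense Pool.STK Pool.BFL Pool.KA Pool.KSAT Pool.K2S Pool.PB
open Pool.GEN Pool.S6C Pool.CHT
open Pool.LBT (LSys Slo Tri ThrOf)
open Pool.GRD (LbP clo1 gr_cls)
open Pool.FLF (Fam.sub)

variable {m n J : ℕ}

/-- **Closed labels from chains**, at every smaller radius. -/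
theorem lbp_of_chn (m r K : ℕ) : ∃ (C₁ : ℝ) (c₁ : ℕ), 1 ≤ C₁ ∧ 1 ≤ c₁ ∧
    ∀ (J : ℕ) (F : Pool.KA.Fam m J) (c : ℕ → Fin m) (a w e v u : ℕ) (g : ℕ → ℕ) (A : F.Ω → Prop)
      (θ : ℝ) (hA : 0 < Pool.K2S.Pe F.p A), Set.InjOn c (Set.Iio r) → w ≤ a → a + v ≤ J →
      (∀ i < r, e + g i + v + c₁ ≤ J) → 0 ≤ θ → (Pool.FLF.Fam.sub F A hA).Tm θ →
      C₁ * (θ + 1) ≤ ((J : ℝ) - w) * Real.log 2 → Real.exp (C₁ * (θ + 1)) ≤ 2 ^ u →
      Pool.W.GEN.ChN F c r (fun _ => K) a w e g A → ∀ i < r, r * u + 1 + c₁ ≤ g i + v →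
      ∃ B : F.Ω → Prop, Pool.K2S.Sub B A ∧ Pool.K2S.Pe F.p A ≤ c₁ * Pool.K2S.Pe F.p B ∧
        ∃ (V : Type) (z : Pool.GEN.PtT F → V) (z' : Pool.GEN.LnT F → V) (G : V → MvPolynomial (Option (Fin m)) ℝ),
        Pool.GRD.LbP F ((range i).image c) (c i) c₁ J (a + v) (g i + v - (r * u + 1 + c₁)) B z z' G := by
  classical
  obtain ⟨C₁, c₀, hC₁, hsl⟩ := Pool.W.CHT.ch_slope' m r (fun _ => max K 1) (fun _ => le_max_right _ _)
  obtain ⟨c', hc', hclo⟩ := Pool.W.GRD.clo1 r (max K 1)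
  refine ⟨C₁, c₀ + 2 * c', hC₁, by omega, ?_⟩
  intro J F c a w e v u g A θ hA hc hwa haJ hvis hθ hTm h1 h2 hch i hi hgi
  obtain ⟨G, H, hG⟩ := hch
  have hG' : Pool.W.GEN.ChOK F c r (fun _ => max K 1) a w e g A G H :=
    hG.mono le_rfl (fun _ => le_max_left _ _) le_rfl le_rfl
  have hinj : Pool.STAT.CLO.Inj c r := fun l hl l' hl' h => hc hl hl' h
  rcases Nat.lt_or_ge v (r * u + 1) with hv | hv
  · obtain ⟨z, z', P, B, hBA, hPe, -, -, -, -, hlb⟩ := hclo m J F c (fun _ => max K 1) a w e g A G H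
      hwa (by omega) hinj (fun _ _ => le_rfl) hG'
    have h3 := (hlb i hi (by omega)).win (Nat.le_add_right a v) haJ
    refine ⟨B, hBA, hPe.trans ?_, Pool.STAT.CLO.LV, _, _, _, h3.mono (Finset.Subset.refl _)
      (by omega) (by omega)⟩
    refine mul_le_mul_of_nonneg_right ?_ (Pool.K2S.Pe_nonneg F.isLaw _)
    exact_mod_cast (by omega : c' ≤ c₀ + 2 * c')
  · obtain ⟨B₁, hB₁, hP₁, hG₁, -⟩ := hsl J F c a w e v u g A G H θ hA hc hwa (by omega)
      (fun l hl => by have := hvis l hl; omega) hv hθ hTm h1 h2 hG'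
    obtain ⟨z, z', P, B, hBA, hPe, -, -, -, -, hlb⟩ := hclo m J F c (fun _ => max K 1) (a + v) w
      (e + c₀) _ B₁ _ _ (by omega) haJ hinj (fun _ _ => le_rfl) hG₁
    have hiu : (i + 1) * u ≤ r * u := Nat.mul_le_mul_right u (by omega)
    have h3 := hlb i hi (by
      show c' ≤ g i + v - (i + 1) * u
      omega)
    refine ⟨B, fun ω hω => hB₁ ω (hBA ω hω), ?_, Pool.STAT.CLO.LV, _, _, _,
      h3.mono (Finset.Subset.refl _) (by omega) ?_⟩
    · have h4 : Pool.K2S.Pe F.p A ≤ 2 * (c' * Pool.K2S.Pe F.p B) := by linarith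
      refine h4.trans ?_
      have h5 : (2 * c' : ℝ) * Pool.K2S.Pe F.p B ≤ ((c₀ + 2 * c' : ℕ) : ℝ) * Pool.K2S.Pe F.p B := by
        refine mul_le_mul_of_nonneg_right ?_ (Pool.K2S.Pe_nonneg F.isLaw _)
        push_cast
        have : (0 : ℝ) ≤ c₀ := Nat.cast_nonneg _
        linarith
      linarith
    · show g i + v - (r * u + 1 + (c₀ + 2 * c')) ≤ g i + v - (i + 1) * u - c'
      omega


end Pool.W.GRW
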